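import Pool.Agent.W516.MTR.Defs

/-!
# Linear relations of mixed weights between periods along a functional
-/

set_option autoImplicit false

namespace Pool.Agent.W516.MTQ

/-- The vector `v` satisfies all linear relations with rational coefficients between the entries
of `z` (of any weights). -/
def RowAll {m : Type} [Fintype m] (z v : m → ℂ) : Prop :=
  ∀ c : m → ℚ, ∑ j, (c j : ℂ) * z j = 0 → ∑ j, (c j : ℂ) * v j = 0

end Pool.Agent.W516.MTQ
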