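import Pool.Agent.W516.MTQ.Defs
import Pool.Agent.W516.MTR.Main
import Pool.Agent.W67.MTZ.ZETA

/-!
# Linear independence of the periods of a motivic basis, all weights together
-/

set_option autoImplicit false
set_option linter.unusedSectionVars false

namespace Pool.Agent.W516.MTQ

open Matrix Pool.Agent.W516.MTZ Pool.Agent.W516.MTH Pool.Agent.W516.MTR

variable {m X : Type} [Fintype m] [DecidableEq m] [Fintype X] [DecidableEq X]

/-- The space of the vectors which satisfy all relations. -/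
def RAll (z : m → ℂ) : Submodule ℂ (m → ℂ) where
  carrier := {v | RowAll z v}
  zero_mem' := by
    intro c _
    simp
  add_mem' := by
    intro v w hv hw c h
    have h1 := hv c h
    have h2 := hw c h
    simp only [Pi.add_apply, mul_add, Finset.sum_add_distrib]
    rw [h1, h2, add_zero]
  smul_mem' := by
    intro e v hv c h
    have h1 := hv c h
    have h2 : ∀ j, (c j : ℂ) * (e • v) j = e * ((c j : ℂ) * v j) := by
      intro j
      rw [Pi.smul_apply, smul_eq_mul]
      ring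
    simp only [h2]
    rw [← Finset.mul_sum, h1, mul_zero]

/-- All relations between the periods are motivic. -/
def MotAll (M : Motive m X) (a : m → ℚ) (p : Matrix m m ℂ) : Prop :=
  ∀ g ∈ M.gp, RowAll (per a p) (per a ((g : (Matrix m m ℂ)ˣ) : Matrix m m ℂ))

theorem indep_iff {M : Motive m X} {p : (Matrix m m ℂ)ˣ} (hp : p ∈ M.gp) (a : m → ℚ) (J : Set m)
    (hJ : IsMotivicBasis M a J) :
    LinearIndependent ℚ (fun j : J => per a (p : Matrix m m ℂ) j) ↔
      MotAll M a (p : Matrix m m ℂ) := by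
  classical
  obtain ⟨hJ1, hJ2⟩ := hJ
  constructor
  · intro h g hg c hc0
    have h1 : ∑ j, c j • mper M a j ∈
        Submodule.span ℚ (Set.range fun k : J => mper M a k) := by
      refine Submodule.sum_mem _ fun j _ => ?_
      refine Submodule.smul_mem _ _ (Submodule.span_mono ?_ (hJ2 j))
      rintro F ⟨k, hk, -, rfl⟩
      exact ⟨⟨k, hk⟩, rfl⟩
    rw [Submodule.mem_span_range_iff_exists_fun] at h1
    obtain ⟨d, hd⟩ := h1
    have h2 : ∀ g' : M.gp, ∑ k, (d k : ℂ) * mper M a (k : m) g' =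
        ∑ j, (c j : ℂ) * mper M a j g' := by
      intro g'
      have h3 := congrFun hd g'
      rw [Finset.sum_apply, Finset.sum_apply] at h3
      simpa only [Pi.smul_apply, Rat.smul_def] using h3
    have h3 : ∑ k : J, d k • per a (p : Matrix m m ℂ) (k : m) = 0 := by
      have h4 := h2 ⟨p, hp⟩
      have h5 : ∑ j, (c j : ℂ) * mper M a j ⟨p, hp⟩ = 0 := hc0
      rw [h5] at h4
      have h6 : ∑ k : J, (d k : ℂ) * per a (p : Matrix m m ℂ) (k : m) = 0 := h4
      simpa only [Rat.smul_def] using h6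
    have h4 := Fintype.linearIndependent_iff.1 h d h3
    have h5 := h2 ⟨g, hg⟩
    have h6 : ∑ k, (d k : ℂ) * mper M a (k : m) ⟨g, hg⟩ = 0 :=
      Finset.sum_eq_zero fun k _ => by rw [h4 k, Rat.cast_zero, zero_mul]
    rw [h6] at h5
    exact h5.symm
  · intro h
    rw [Fintype.linearIndependent_iff]
    intro d hd
    set c : m → ℚ := fun j => if hj : j ∈ J then d ⟨j, hj⟩ else 0 with hc
    have hsum : ∀ f : m → ℂ, ∑ j, (c j : ℂ) * f j = ∑ k : J, (d k : ℂ) * f k := by
      intro f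
      rw [← Fintype.sum_subtype_add_sum_subtype (fun j => j ∈ J) (fun j => (c j : ℂ) * f j)]
      have h1 : ∑ k : {j : m // ¬(j ∈ J)}, (c k : ℂ) * f k = 0 := by
        refine Finset.sum_eq_zero fun k _ => ?_
        have h2 : c k = 0 := by
          rw [hc]
          exact dif_neg k.2
        rw [h2, Rat.cast_zero, zero_mul]
      rw [h1, add_zero]
      refine Finset.sum_congr rfl fun k _ => ?_
      have h2 : c k = d k := by
        rw [hc]
        exact dif_pos k.2
      rw [h2]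
    have hc0 : ∑ j, (c j : ℂ) * per a (p : Matrix m m ℂ) j = 0 := by
      rw [hsum]
      simpa only [Rat.smul_def] using hd
    rw [Fintype.linearIndependent_iff] at hJ1
    refine hJ1 d ?_
    funext g
    have h1 := h g g.2 c hc0
    rw [hsum] at h1
    rw [Finset.sum_apply]
    have h2 : ∑ k : J, (d k : ℂ) * mper M a (k : m) g = 0 := h1
    simpa only [Pi.smul_apply, Rat.smul_def, Pi.zero_apply] using h2

theorem main_q {M : Motive m X} {p : (Matrix m m ℂ)ˣ} (hp : p ∈ M.gp) (a : m → ℚ)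
    (hdeg : ∀ x, Odd (M.deg x) ∧ 3 ≤ M.deg x) (hinj : Function.Injective M.deg)
    (hpi : (p : Matrix m m ℂ) M.t M.t = 2 * Real.pi * Complex.I)
    (hzeta : ∀ x, (p : Matrix m m ℂ) M.o (M.s x) = riemannZeta (M.deg x))
    (hone : (fun _ : M.gp => (1 : ℂ)) ∈ Submodule.span ℚ (Set.range (mper M a)))
    (hper : ∀ x, (fun g : M.gp => ((g : (Matrix m m ℂ)ˣ) : Matrix m m ℂ) M.o (M.s x)) ∈
      Submodule.span ℚ (Set.range (mper M a))) :
    MotAll M a (p : Matrix m m ℂ) ↔
      (∀ (σ : ℂ ≃+* ℂ) (v : m → ℂ), RowAll (per a (p : Matrix m m ℂ)) v →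
        RowAll (per a (p : Matrix m m ℂ))
          (v ᵥ* (((p⁻¹ : (Matrix m m ℂ)ˣ) : Matrix m m ℂ) * (p : Matrix m m ℂ).map σ))) ∧
      ∀ (x : X) (q : ℚ), riemannZeta (M.deg x) ≠ q := by
  have hs_val : ∀ σ : ℂ ≃+* ℂ, ((p⁻¹ * sg σ p : (Matrix m m ℂ)ˣ) : Matrix m m ℂ) =
      ((p⁻¹ : (Matrix m m ℂ)ˣ) : Matrix m m ℂ) * (p : Matrix m m ℂ).map σ := by
    intro σ
    rw [Units.val_mul]
    rfl
  have hsgp : ∀ σ : ℂ ≃+* ℂ, p⁻¹ * sg σ p ∈ M.gp := fun σ =>
    Subgroup.mul_mem _ (Subgroup.inv_mem _ hp) (sg_mem M σ hp)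
  obtain ⟨htr, hindiff⟩ := Pool.Agent.W67.MTZ.T_ZETA m X M (p : Matrix m m ℂ) hdeg hinj hpi hzeta
  constructor
  · intro h
    refine ⟨fun σ v hv => ?_, fun x q hq => ?_⟩
    · rw [← hs_val]
      have h1 := span_rows hp (v := v) (a := a) (fun n c _ h0 => hv c h0)
      have h2 : Submodule.span ℂ
          {w : m → ℂ | ∃ g ∈ M.gp, w = per a ((g : (Matrix m m ℂ)ˣ) : Matrix m m ℂ)} ≤
          (RAll (per a (p : Matrix m m ℂ))).comap
            (Matrix.vecMulLinear ((p⁻¹ * sg σ p : (Matrix m m ℂ)ˣ) : Matrix m m ℂ)) := by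
        rw [Submodule.span_le]
        rintro _ ⟨g, hg, rfl⟩
        have h3 := h (g * (p⁻¹ * sg σ p)) (Subgroup.mul_mem _ hg (hsgp σ))
        rw [Units.val_mul, per_mul] at h3
        exact h3
      exact h2 h1
    · -- the relation `ζ(n) = q`
      have h1 : (fun g : M.gp => ((g : (Matrix m m ℂ)ˣ) : Matrix m m ℂ) M.o (M.s x)) -
          q • (fun _ : M.gp => (1 : ℂ)) ∈ Submodule.span ℚ (Set.range (mper M a)) :=
        Submodule.sub_mem _ (hper x) (Submodule.smul_mem _ _ hone)
      rw [Submodule.mem_span_range_iff_exists_fun] at h1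
      obtain ⟨c, hc⟩ := h1
      have h2 : ∀ g : M.gp, ∑ j, (c j : ℂ) * per a ((g : (Matrix m m ℂ)ˣ) : Matrix m m ℂ) j =
          ((g : (Matrix m m ℂ)ˣ) : Matrix m m ℂ) M.o (M.s x) - q := by
        intro g
        have h3 := congrFun hc g
        rw [Finset.sum_apply, Pi.sub_apply, Pi.smul_apply, Rat.smul_def, mul_one] at h3
        rw [← h3]
        refine Finset.sum_congr rfl fun j _ => ?_
        rw [Pi.smul_apply, Rat.smul_def]
        rfl
      have h3 : ∑ j, (c j : ℂ) * per a (p : Matrix m m ℂ) j = 0 := by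
        have h4 := h2 ⟨p, hp⟩
        simp only at h4
        rw [h4, hzeta, hq, sub_self]
      have h4 := h 1 (Subgroup.one_mem _) c h3
      have h5 := h (ex M 1 x) (U0_le M (ex_mem M 1 x)) c h3
      have h6 := h2 ⟨1, Subgroup.one_mem _⟩
      have h7 := h2 ⟨ex M 1 x, U0_le M (ex_mem M 1 x)⟩
      simp only at h6 h7
      rw [h4, Units.val_one, one_os] at h6
      rw [h5, ex_os, if_pos rfl] at h7
      have h8 : (1 : ℂ) = 0 := by linear_combination h6 - h7
      exact one_ne_zero h8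
  · rintro ⟨h, hirr⟩
    have hH : RStab M (RAll (per a (p : Matrix m m ℂ))) ≤ M.gp := fun g hg => hg.1
    have hs : ∀ σ : ℂ ≃+* ℂ, p⁻¹ * sg σ p ∈ RStab M (RAll (per a (p : Matrix m m ℂ))) := by
      intro σ
      refine ⟨hsgp σ, fun v hv => ?_⟩
      rw [hs_val]
      exact h σ v hv
    have hle := gp_le_of hH hp hs htr (hindiff.2 hirr)
    intro g hg
    have h1 := (hle (Subgroup.mul_mem _ (Subgroup.inv_mem _ hp) hg)).2
      (per a (p : Matrix m m ℂ)) (fun c h0 => h0)
    rw [← per_mul, ← Units.val_mul, mul_inv_cancel_left] at h1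
    exact h1

end Pool.Agent.W516.MTQ
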